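import Pool.Agent.H73.GMS.Stmts

/-!
# Board `gms`, row `KMN`
-/

set_option autoImplicit false

namespace GMS

theorem KMN (F : Type*) [Group F] : KMNStmt (F := F) := by
  intro N₀ hN hb
  obtain ⟨n, hn⟩ := hb
  have hS : sSup {i : ℕ | ∃ L : Subgroup F, N₀ ≤ L ∧ L.index ≠ 0 ∧ L.index = i} ∈
      {i : ℕ | ∃ L : Subgroup F, N₀ ≤ L ∧ L.index ≠ 0 ∧ L.index = i} := by
    apply Nat.sSup_mem
    · exact ⟨1, ⊤, le_top, by rw [Subgroup.index_top]; exact one_ne_zero, Subgroup.index_top⟩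
    · refine ⟨n, ?_⟩
      rintro i ⟨L, h1, h2, rfl⟩
      exact (hn L h1 h2).le
  obtain ⟨K, hK1, hK2, hK3⟩ := hS
  have hmax : ∀ L : Subgroup F, N₀ ≤ L → L.index ≠ 0 → L.index ≤ K.index := by
    intro L h1 h2
    rw [hK3]
    apply le_csSup
    · refine ⟨n, ?_⟩
      rintro i ⟨L, h1, h2, rfl⟩
      exact (hn L h1 h2).le
    · exact ⟨L, h1, h2, rfl⟩
  have hmin : ∀ L : Subgroup F, N₀ ≤ L → L.index ≠ 0 → K ≤ L := by
    intro L h1 h2
    have h3 : (K ⊓ L).index ≠ 0 := Subgroup.index_inf_ne_zero hK2 h2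
    have h4 := hmax (K ⊓ L) (le_inf hK1 h1) h3
    have h5 := Subgroup.relIndex_mul_index (inf_le_left : K ⊓ L ≤ K)
    have h6 : (K ⊓ L).relIndex K = 1 := by
      rw [← h5] at h3 h4
      have h7 : (K ⊓ L).relIndex K ≠ 0 := left_ne_zero_of_mul h3
      have h8 : (K ⊓ L).relIndex K ≤ 1 :=
        Nat.le_of_mul_le_mul_right (by rw [one_mul]; exact h4) (Nat.pos_of_ne_zero hK2)
      omega
    exact (Subgroup.relIndex_eq_one.1 h6).trans inf_le_right
  refine ⟨K, ⟨fun x hx g => ?_⟩, hK1, hK2, hmin⟩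
  have h1 : (K.comap (MulAut.conj g).toMonoidHom).index = K.index :=
    Subgroup.index_comap_of_surjective K (MulAut.conj g).surjective
  have h2 := hmin (K.comap (MulAut.conj g).toMonoidHom) (fun y hy => hK1 (hN.conj_mem y hy g))
    (by rw [h1]; exact hK2)
  exact h2 hx

end GMS
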